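import Pool.Agent.QSB.StmtsX4
import Pool.Agent.Helper10_QSN.MSD
import Pool.Agent.Helper51_QSN.ABD
import Pool.Agent.Helper70_QSB.RYD

/-!
# Squad QSB, row S4D: the condition `S4` for `SL_n (𝔻)`, `n ≥ 4`
-/

set_option autoImplicit false

namespace Pool.Agent.QSB.H29

open Matrix Finset Pool.Agent.QSX Pool.Agent.QSN Pool.Agent.QSB Pool.Agent.QSN.H10
open Pool.Agent.QSX.H10

section

variable {k n : ℕ} (hk : 0 < k) (𝔻 : Subalgebra ℝ (Matrix (Fin k) (Fin k) ℝ))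

/-- The functionals `c_i - c_j` on the vectors of sum zero. -/
noncomputable def D0 (a b : Fin n) : bD n k →ₗ[ℝ] ℝ where
  toFun c := rd hk c.1 a - rd hk c.1 b
  map_add' c c' := by
    show rd hk (c.1 + c'.1) a - rd hk (c.1 + c'.1) b = _
    rw [map_add, Pi.add_apply, Pi.add_apply]
    ring
  map_smul' r c := by
    show rd hk (r • c.1) a - rd hk (r • c.1) b = _
    rw [map_smul, Pi.smul_apply, Pi.smul_apply, smul_eq_mul, smul_eq_mul, RingHom.id_apply,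
      smul_eq_mul]
    ring

/-- The functionals `c_i - c_j`. -/
noncomputable def DD (a b : Fin n) : (datD n 𝔻).b →ₗ[ℝ] ℝ := D0 hk a b

theorem DD_add (a b c : Fin n) : DD hk 𝔻 a b + DD hk 𝔻 b c = DD hk 𝔻 a c := by
  apply LinearMap.ext
  intro x
  rw [LinearMap.add_apply]
  show (rd hk x.1 a - rd hk x.1 b) + (rd hk x.1 b - rd hk x.1 c) = rd hk x.1 a - rd hk x.1 c
  ring

theorem DD_rx (p : PX n) : DD hk 𝔻 p.1.1 p.1.2 = rx hk p := rfl

theorem DD_cx (hn : 0 < n) (a b : Fin n) (f : Fin n → ℝ) :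
    DD hk 𝔻 a b (cx k hn f) = f a - f b := by
  show rd hk (cst k n (fun i => f i - (∑ i, f i) / n)) a -
    rd hk (cst k n (fun i => f i - (∑ i, f i) / n)) b = _
  rw [rd_cst]
  ring

theorem DD_npr (hn : 0 < n) {a b a' b' : Fin n} (h : a < b) (h' : a' < b')
    (hne : ¬ (a = a' ∧ b = b')) : NPr (DD hk 𝔻 a b) (DD hk 𝔻 a' b') := by
  constructor
  · intro c hc
    have h1 : rx hk ⟨(a, b), h⟩ = c • rx hk ⟨(a', b'), h'⟩ := hc
    have h2 := rx_smul hk hn h1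
    rw [Subtype.mk.injEq, Prod.mk.injEq] at h2
    exact hne h2
  · intro c hc
    have h1 : rx hk ⟨(a', b'), h'⟩ = c • rx hk ⟨(a, b), h⟩ := hc
    have h2 := rx_smul hk hn h1
    rw [Subtype.mk.injEq, Prod.mk.injEq] at h2
    exact hne ⟨h2.1.symm, h2.2.symm⟩

theorem DD_vec {a b : Fin n} (h : a < b) {x : Matrix (Fin k) (Fin k) ℝ} (hx : x ∈ 𝔻)
    (h0 : x ≠ 0) : RtV (datD n 𝔻) (DD hk 𝔻 a b) (sgl k a b x) := by
  refine ⟨⟨⟨Matrix.single a b x, ⟨fun i j => ?_, fun i j hij => ?_⟩, rfl⟩, fun c => ?_⟩,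
    fun hc => h0 (sgl_inj hc)⟩
  · rw [Matrix.single_apply]
    by_cases h1 : a = i ∧ b = j
    · rw [if_pos h1]; exact hx
    · rw [if_neg h1]; exact 𝔻.zero_mem
  · rw [Matrix.single_apply, if_neg]
    rintro ⟨h1, h2⟩
    rw [h1, h2] at h
    exact absurd hij (not_le.2 h)
  · exact ex_wt (T := Unit) (fun _ => x) hk (⟨(a, b), h⟩, ()) c

theorem sgl_br {i m j : Fin n} (h : j ≠ i) (x : Matrix (Fin k) (Fin k) ℝ) :
    sgl k i j x = sgl k i m x * sgl k m j 1 - sgl k m j 1 * sgl k i m x := by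
  rw [sgl_mul, sgl_mul_ne _ _ _ _ h, sub_zero, mul_one]

theorem one_ne (hk : 0 < k) : (1 : Matrix (Fin k) (Fin k) ℝ) ≠ 0 := by
  intro h
  have h1 := congrFun (congrFun h (⟨0, hk⟩ : Fin k)) ⟨0, hk⟩
  rw [Matrix.one_apply_eq, Matrix.zero_apply] at h1
  exact one_ne_zero h1

theorem DD_root {a b : Fin n} (h : a < b) : IsRt (datD n 𝔻) (DD hk 𝔻 a b) :=
  ⟨_, DD_vec hk 𝔻 h 𝔻.one_mem (one_ne hk)⟩

theorem root_DD {ρ : (datD n 𝔻).b →ₗ[ℝ] ℝ} (h : IsRt (datD n 𝔻) ρ) :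
    ∃ i j : Fin n, i < j ∧ ρ = DD hk 𝔻 i j := by
  obtain ⟨i, j, hij, h1⟩ := Pool.Agent.QSB.H70.rootD h
  refine ⟨i, j, hij, LinearMap.ext ?_⟩
  rintro ⟨_, d, hd, rfl⟩
  rw [h1 d hd]
  show _ = rd hk (cst k n d) i - rd hk (cst k n d) j
  rw [rd_cst]

theorem vec_DD (hn : 0 < n) {a b : Fin n} (h : a < b) {z : Matrix (Fin (n * k)) (Fin (n * k)) ℝ}
    (hz : RtV (datD n 𝔻) (DD hk 𝔻 a b) z) : ∃ x ∈ 𝔻, x ≠ 0 ∧ z = sgl k a b x := by
  obtain ⟨⟨⟨x, hx, rfl⟩, hw⟩, hne⟩ := hz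
  have h1 : ∀ i j, x i j ≠ 0 → i = a ∧ j = b := by
    intro i j hij
    have hlt : i < j := by
      by_contra hc
      exact hij (hx.2 i j (not_lt.1 hc))
    have h2 : rx hk ⟨(i, j), hlt⟩ = rx hk ⟨(a, b), h⟩ := by
      apply LinearMap.ext
      rintro ⟨_, d, hd, rfl⟩
      rw [rx_apply]
      exact Pool.Agent.QSN.H51.root_of_ne (DD hk 𝔻 a b) hw hij d hd
    have h3 := rx_inj hk hn h2
    rw [Subtype.mk.injEq, Prod.mk.injEq] at h3
    exact h3
  have h2 : x = Matrix.single a b (x a b) := by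
    refine Matrix.ext fun i j => ?_
    rw [Matrix.single_apply]
    by_cases hij : a = i ∧ b = j
    · rw [if_pos hij, hij.1, hij.2]
    · rw [if_neg hij]
      by_contra hc
      have := h1 i j hc
      exact hij ⟨this.1.symm, this.2.symm⟩
  have h3 : sgl k a b (x a b) = blk k n x := by
    rw [sgl_apply, ← h2]
  refine ⟨x a b, hx.1 a b, fun h0 => hne ?_, h3.symm⟩
  rw [h0, map_zero] at h3
  exact h3.symm

include hk in
theorem not_root (hn : 0 < n) {τ : (datD n 𝔻).b →ₗ[ℝ] ℝ} (m : Fin n)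
    (h : 2 ≤ |τ (cx k hn (Pi.single m 1))|) : ¬ IsRt (datD n 𝔻) τ := by
  intro hr
  obtain ⟨i, j, -, rfl⟩ := root_DD hk 𝔻 hr
  rw [DD_cx] at h
  have h1 : ∀ l : Fin n, (Pi.single m 1 : Fin n → ℝ) l = 0 ∨ (Pi.single m 1 : Fin n → ℝ) l = 1 := by
    intro l
    by_cases hl : l = m
    · right; rw [hl, Pi.single_eq_same]
    · left; rw [Pi.single_eq_of_ne hl]
  rcases h1 i with e1 | e1 <;> rcases h1 j with e2 | e2 <;> rw [e1, e2] at h <;> norm_num at h

end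

theorem s4d : S4dStmt := by
  intro k n 𝔻 hk hn ρ hρ
  have hn0 : 0 < n := by omega
  obtain ⟨i, j, hij, rfl⟩ := root_DD hk 𝔻 hρ
  have hijv : (i : ℕ) < j := hij
  have hjn := j.2
  by_cases h1 : (i : ℕ) + 1 < j
  · -- the first alternative
    left
    intro z hz
    obtain ⟨x, hx, hx0, rfl⟩ := vec_DD hk 𝔻 hn0 hij hz
    let m : Fin n := ⟨(i : ℕ) + 1, by omega⟩
    have him : i < m := by rw [Fin.lt_def]; show (i : ℕ) < (i : ℕ) + 1; omega
    have hmj : m < j := by rw [Fin.lt_def]; exact h1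
    refine Submodule.subset_span ⟨DD hk 𝔻 i m, DD hk 𝔻 m j, sgl k i m x, sgl k m j 1,
      DD_npr hk 𝔻 hn0 him hmj (fun h => him.ne h.1), DD_add hk 𝔻 i m j, DD_vec hk 𝔻 him hx hx0,
      DD_vec hk 𝔻 hmj 𝔻.one_mem (one_ne hk), sgl_br hij.ne' x⟩
  · have hj : (j : ℕ) = i + 1 := by omega
    by_cases h2 : (j : ℕ) + 2 < n
    · -- the last alternative, to the right
      right; right; right; right; right
      let p : Fin n := ⟨(j : ℕ) + 1, by omega⟩
      let q : Fin n := ⟨(j : ℕ) + 2, h2⟩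
      have hjp : j < p := by rw [Fin.lt_def]; show (j : ℕ) < (j : ℕ) + 1; omega
      have hpq : p < q := by rw [Fin.lt_def]; show (j : ℕ) + 1 < (j : ℕ) + 2; omega
      refine ⟨DD hk 𝔻 j p, DD hk 𝔻 p q, DD_root hk 𝔻 hjp, DD_root hk 𝔻 hpq,
        DD_npr hk 𝔻 hn0 hjp hij (fun h => hij.ne' h.1),
        DD_npr hk 𝔻 hn0 hpq hij (fun h => (hij.trans hjp).ne' h.1),
        DD_npr hk 𝔻 hn0 hpq hjp (fun h => hjp.ne' h.1), ?_, ?_, ?_, ?_, ?_⟩
      · rw [DD_add]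
        exact DD_npr hk 𝔻 hn0 (hjp.trans hpq) hij (fun h => hij.ne' h.1)
      · rw [DD_add]
        exact DD_root hk 𝔻 (hij.trans hjp)
      · rw [DD_add]
        exact DD_root hk 𝔻 (hjp.trans hpq)
      · rw [DD_add, DD_add]
        exact DD_root hk 𝔻 ((hij.trans hjp).trans hpq)
      · apply not_root hk 𝔻 hn0 j
        rw [LinearMap.add_apply, LinearMap.add_apply, DD_cx, DD_cx, Pi.single_eq_same,
          Pi.single_eq_of_ne hjp.ne', Pi.single_eq_of_ne (hjp.trans hpq).ne']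
        norm_num
    · by_cases h3 : 2 ≤ (i : ℕ)
      · -- the last alternative, to the left
        right; right; right; right; right
        let p : Fin n := ⟨(i : ℕ) - 1, by omega⟩
        let q : Fin n := ⟨(i : ℕ) - 2, by omega⟩
        have hpi : p < i := by rw [Fin.lt_def]; show (i : ℕ) - 1 < (i : ℕ); omega
        have hqp : q < p := by rw [Fin.lt_def]; show (i : ℕ) - 2 < (i : ℕ) - 1; omega
        refine ⟨DD hk 𝔻 p i, DD hk 𝔻 q p, DD_root hk 𝔻 hpi, DD_root hk 𝔻 hqp,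
          DD_npr hk 𝔻 hn0 hpi hij (fun h => hpi.ne h.1),
          DD_npr hk 𝔻 hn0 hqp hij (fun h => (hqp.trans hpi).ne h.1),
          DD_npr hk 𝔻 hn0 hqp hpi (fun h => hqp.ne h.1), ?_, ?_, ?_, ?_, ?_⟩
        · rw [add_comm, DD_add]
          exact DD_npr hk 𝔻 hn0 (hqp.trans hpi) hij (fun h => (hqp.trans hpi).ne h.1)
        · rw [add_comm, DD_add]
          exact DD_root hk 𝔻 (hpi.trans hij)
        · rw [add_comm, DD_add]
          exact DD_root hk 𝔻 (hqp.trans hpi)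
        · rw [add_comm (DD hk 𝔻 i j), DD_add, add_comm, DD_add]
          exact DD_root hk 𝔻 ((hqp.trans hpi).trans hij)
        · apply not_root hk 𝔻 hn0 i
          rw [LinearMap.add_apply, LinearMap.add_apply, DD_cx, DD_cx, Pi.single_eq_same,
            Pi.single_eq_of_ne hpi.ne, Pi.single_eq_of_ne (hqp.trans hpi).ne]
          norm_num
      · -- the middle root for `n = 4`
        right; right; right; right; left
        let p : Fin n := ⟨(i : ℕ) - 1, by omega⟩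
        let q : Fin n := ⟨(j : ℕ) + 1, by omega⟩
        have hpi : p < i := by rw [Fin.lt_def]; show (i : ℕ) - 1 < (i : ℕ); omega
        have hjq : j < q := by rw [Fin.lt_def]; show (j : ℕ) < (j : ℕ) + 1; omega
        refine ⟨DD hk 𝔻 p i, DD hk 𝔻 j q, DD_root hk 𝔻 hpi, DD_root hk 𝔻 hjq,
          DD_npr hk 𝔻 hn0 hpi hij (fun h => hpi.ne h.1),
          DD_npr hk 𝔻 hn0 hjq hij (fun h => hij.ne' h.1), ?_, ?_, ?_⟩
        · rw [add_comm, DD_add]
          exact DD_root hk 𝔻 (hpi.trans hij)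
        · rw [DD_add]
          exact DD_root hk 𝔻 (hij.trans hjq)
        · rw [add_comm (DD hk 𝔻 i j), DD_add, DD_add]
          exact DD_root hk 𝔻 ((hpi.trans hij).trans hjq)

end Pool.Agent.QSB.H29
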